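import Pool.Agent.HetCyc.Main

/-!
# A non-transverse heterodimensional cycle that is not approximated by robust ones

Negative answer to Q1 of MP_4ecd89_an: on the 3-torus there is a `C^∞` diffeomorphism `f` with a
non-transverse heterodimensional cycle associated with two saddles `P`, `Q` (fixed points of index
1 and 2) such that, for every `r ≥ 1`, in a `C^r` neighbourhood of `f` no diffeomorphism `g` has a
`C^r`-robust non-transverse heterodimensional cycle associated with hyperbolic sets containing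
`P_g` and `Q_g`.

The definitions are in `Pool/Agent/HetCyc/Defs.lean`.
-/

namespace Pool.Agent.Results.MP_4ecd89_an.FragileNonTransverse

open HetCyc

theorem result :
    ∃ (f : E 3 ≃ E 3) (P Q : E 3), IsTorusDiffeo ⊤ f ∧ f P = P ∧ f Q = Q ∧
      IsNonTransverseCycle f (orb P) (orb Q) 1 2 ∧
      ∀ r : ℕ∞, 1 ≤ r → ∃ U, IsCrNhd r f U ∧ ∃ δ : ℝ, 0 < δ ∧
        ∀ g ∈ U, IsTorusDiffeo r g → ∃ Pg Qg, IsContPt δ g P Pg ∧ IsContPt δ g Q Qg ∧
          ∀ (Λ Γ : Set (E 3)) (i j : ℕ), Pg ∈ Λ → Qg ∈ Γ → ¬ IsRobust r g Λ Γ i j :=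
  HetCyc.main

end Pool.Agent.Results.MP_4ecd89_an.FragileNonTransverse
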